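import Mathlib

set_option autoImplicit false

namespace Pool.Agent.Results.MP_b73301_gt.NotClosed

open Set

/-- centralizer of a subset -/
def Cent {S : Type} [Semigroup S] (T : Set S) : Set S := {g | ∀ f ∈ T, f * g = g * f}

/-- finite double centralizers -/
def FDC (S : Type) [Semigroup S] : Prop := ∀ F : Set S, F.Finite → (Cent (Cent F)).Finite

/-- the semi-Zariski topology; `WithOne S` is `S` with an external identity -/
@[reducible] def Zar (S : Type) [Semigroup S] : TopologicalSpace S :=
  TopologicalSpace.generateFrom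
    ({U | ∃ a b c : WithOne S, U = {x : S | a * x * b ≠ c}} ∪
      {U | ∃ a b c d : WithOne S, U = {x : S | a * x * b ≠ c * x * d}})

/-- elements whose double centralizer has at most `n` elements -/
def Sle (S : Type) [Semigroup S] (n : ℕ) : Set S := {f | (Cent (Cent {f})).encard ≤ n}

inductive V
  | z | p | f (t : Fin 3) | x (i : ℕ) | h (i : ℕ) | k (i : ℕ) | g (j : ℕ) | l (j : ℕ) | m (j : ℕ)
deriving DecidableEq

open V

def R : V → V → Bool
  | x i, g j => decide (j ≤ i)
  | f _, g _ => true
  | x i, h j => decide (i = j)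
  | k i, h j => decide (i = j)
  | l i, g j => decide (i = j)
  | l i, m j => decide (i = j)
  | _, _ => false

instance : Semigroup V where
  mul a b := if R a b then p else z
  mul_assoc a b c := by
    change (if R (if R a b then p else z) c then p else z) = if R a (if R b c then p else z) then p else z
    cases R a b <;> cases R b c <;> cases a <;> simp [R]

theorem mul_def (a b : V) : a * b = if R a b then p else z := rfl

theorem comm_iff (a b : V) : a * b = b * a ↔ R a b = R b a := by
  rw [mul_def, mul_def]; cases R a b <;> cases R b a <;> simp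

theorem cc {F : Set V} {c : V} (hc : c ∈ Cent (Cent F)) (b : V) (hb : R b c ≠ R c b) :
    ∃ a ∈ F, R a b ≠ R b a := by
  by_contra h
  push Not at h
  exact hb ((comm_iff _ _).1 (hc b (fun a ha => (comm_iff _ _).2 (h a ha))))

def idx : V → ℕ
  | x i => i | h i => i | k i => i | g i => i | l i => i | m i => i | _ => 0

theorem fin_idx (n : ℕ) : {c : V | idx c ≤ n}.Finite := by
  have hI := finite_Iic n
  refine ((((((((hI.image x).union (hI.image h)).union (hI.image k)).union (hI.image g)).union
    (hI.image l)).union (hI.image m)).union (finite_range f)).union (toFinite {z, p})).subset ?_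
  intro c hc
  cases c <;> simp_all [idx]

theorem fdc : FDC V := by
  intro F hF
  obtain ⟨n, hn⟩ := (hF.image idx).bddAbove
  have hn' : ∀ a ∈ F, idx a ≤ n := fun a ha => hn ⟨a, ha, rfl⟩
  refine (fin_idx n).subset (fun c hc => ?_)
  have key : ∀ b, R b c ≠ R c b → (∀ a, R a b ≠ R b a → idx a = idx c) → idx c ≤ n := by
    intro b h1 h2
    obtain ⟨a, ha, h3⟩ := cc hc b h1
    exact h2 a h3 ▸ hn' a ha
  cases c with
  | x i => exact key (h i) (by simp [R]) (fun a => by cases a <;> simp [R, idx])
  | h i => exact key (k i) (by simp [R]) (fun a => by cases a <;> simp [R, idx, eq_comm])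
  | k i => exact key (h i) (by simp [R]) (fun a => by cases a <;> simp [R, idx])
  | g i => exact key (l i) (by simp [R]) (fun a => by cases a <;> simp [R, idx, eq_comm])
  | l i => exact key (m i) (by simp [R]) (fun a => by cases a <;> simp [R, idx])
  | m i => exact key (l i) (by simp [R]) (fun a => by cases a <;> simp [R, idx, eq_comm])
  | _ => simp [idx]

theorem x_mem (i : ℕ) : x i ∈ Sle V 4 := by
  have : Cent (Cent {x i}) ⊆ ↑({z, p, x i, k i} : Finset V) := by
    intro c hc
    have key : ∀ b, R b c ≠ R c b → R (x i) b ≠ R b (x i) := fun b hb => by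
      obtain ⟨a, rfl, h3⟩ := cc hc b hb
      exact h3
    cases c with
    | f t => simpa [R] using key (g (i + 1))
    | x j => simpa [R, eq_comm] using key (h j)
    | h j => simpa [R] using key (k j)
    | k j => simpa [R, eq_comm] using key (h j)
    | g j => simpa [R] using key (l j)
    | l j => simpa [R] using key (m j)
    | m j => simpa [R] using key (l j)
    | _ => simp
  refine (encard_le_encard this).trans ?_
  rw [encard_coe_eq_coe_finsetCard]
  exact_mod_cast Finset.card_le_four

theorem f_not : f 0 ∉ Sle V 4 := by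
  have : ↑({z, p, f 0, f 1, f 2} : Finset V) ⊆ Cent (Cent {f 0}) := by
    intro c hc b hb
    have hb' := (comm_iff _ _).1 (hb _ rfl)
    rw [comm_iff]
    simp only [Finset.coe_insert, Finset.coe_singleton, mem_insert_iff, mem_singleton_iff] at hc
    rcases hc with rfl | rfl | rfl | rfl | rfl <;> cases b <;> simp_all [R]
  intro h
  have h2 := (encard_le_encard this).trans h
  rw [encard_coe_eq_coe_finsetCard] at h2
  have h3 : ({z, p, f 0, f 1, f 2} : Finset V).card = 5 := by decide
  rw [h3] at h2
  exact absurd h2 (by decide)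

theorem ev (a b : WithOne V) : (a = 1 ∧ b = 1) ∨ ∃ c : V, (c = z ∨ c = p) ∧
    a * (f 0 : V) * b = c ∧ ∀ᶠ i in Filter.atTop, a * (x i : V) * b = c := by
  have hR : ∀ c, ∀ᶠ i in Filter.atTop, R (x i) c = R (f 0) c := by
    intro c
    cases c with
    | g j => filter_upwards [Filter.eventually_ge_atTop j] with i hi; simp [R, hi]
    | h j => filter_upwards [Filter.eventually_gt_atTop j] with i hi; simp [R, hi.ne']
    | _ => simp [R]
  have hL : ∀ c i, R c (x i) = false := fun c i => by cases c <;> rfl
  have hL' : ∀ c, R c (f 0) = false := fun c => by cases c <;> rfl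
  have hz : ∀ c, R z c = false := fun c => by cases c <;> rfl
  induction a using WithOne.recOneCoe with
  | one =>
    induction b using WithOne.recOneCoe with
    | one => exact Or.inl ⟨rfl, rfl⟩
    | coe b =>
      refine Or.inr ⟨f 0 * b, by rw [mul_def]; split_ifs <;> simp, by simp, ?_⟩
      filter_upwards [hR b] with i hi
      rw [one_mul, ← WithOne.coe_mul, mul_def, mul_def, hi]
  | coe a =>
    refine Or.inr ⟨z, Or.inl rfl, ?_, Filter.Eventually.of_forall (fun i => ?_)⟩ <;>
    induction b using WithOne.recOneCoe <;>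
    simp [← WithOne.coe_mul, mul_def, hL, hL', hz]

theorem result : ∃ (S : Type) (_ : Semigroup S) (n : ℕ), FDC S ∧ ¬ @IsClosed S (Zar S) (Sle S n) := by
  refine ⟨V, inferInstance, 4, fdc, fun hc => f_not ?_⟩
  letI := Zar V
  refine hc.mem_of_tendsto (f := x) (b := Filter.atTop) ?_ (Filter.Eventually.of_forall x_mem)
  have hne : ∀ c : WithOne V, ∀ᶠ i in Filter.atTop, ((x i : V) : WithOne V) ≠ c := by
    intro c
    induction c using WithOne.recOneCoe with
    | one => simp
    | coe c =>
      filter_upwards [Filter.eventually_gt_atTop (idx c)] with i hi he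
      rw [← WithOne.coe_inj.1 he] at hi
      exact lt_irrefl _ hi
  refine TopologicalSpace.tendsto_nhds_generateFrom_iff.2 ?_
  rintro U (⟨a, b, c, rfl⟩ | ⟨a, b, c, d, rfl⟩) hU
  · rcases ev a b with ⟨rfl, rfl⟩ | ⟨e, -, h1, h2⟩
    · simpa using hne c
    · filter_upwards [h2] with i hi
      simp only [mem_preimage, mem_ofPred_eq] at hU ⊢
      rwa [hi, ← h1]
  · rcases ev a b with ⟨rfl, rfl⟩ | ⟨e, -, h1, h2⟩ <;> rcases ev c d with ⟨rfl, rfl⟩ | ⟨e', -, h3, h4⟩
    · simp at hU
    · filter_upwards [h4, hne e'] with i hi h5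
      simp only [mem_preimage, mem_ofPred_eq]
      rwa [hi, one_mul, mul_one]
    · filter_upwards [h2, hne e] with i hi h5
      simp only [mem_preimage, mem_ofPred_eq]
      rw [hi, one_mul, mul_one]; exact h5.symm
    · filter_upwards [h2, h4] with i hi hi'
      simp only [mem_preimage, mem_ofPred_eq] at hU ⊢
      rwa [hi, hi', ← h1, ← h3]

end Pool.Agent.Results.MP_b73301_gt.NotClosed
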