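import Mathlib
import Pool.Agent.H13.Heis

open Pool.Agent.H13.Supp Pool.Agent.H13.Heis

namespace Pool.Agent.Results.MP_b73301_gt.NotSigma

theorem result : ∃ (S : Type) (_ : Semigroup S) (n : ℕ), FDC S ∧
    ¬ SigmaDiscrete (semiZariski S) {f | (Cent (Cent {f})).encard ≤ n} := by
  refine ⟨H, inferInstance, 8, fdc, ?_⟩
  rw [Set.eq_univ_of_forall (s := {f : H | (Cent (Cent {f})).encard ≤ (8 : ℕ)}) cc_one]
  exact not_sd

end Pool.Agent.Results.MP_b73301_gt.NotSigma
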